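import Pool.Agent.COV.StmtsC

/-! Row CVM of squad COV: `Cov` is monotone and compatible with field extensions. -/

set_option autoImplicit false

namespace Pool.Agent.COV.H53

open Polynomial

theorem cvm : CvmStmt := by
  refine ⟨?_, ?_⟩
  · intro k _ n m F hnm h
    obtain ⟨j, P, Q, V, h0, h1, hP, hQ, hw, he⟩ := h
    exact ⟨j, P, Q, V, h0, h1, hP.trans hnm, hQ.trans hnm, hw, he⟩
  · intro k l _ _ φ n F h
    obtain ⟨j, P, Q, V, h0, h1, hP, hQ, hw, he⟩ := h
    refine ⟨φ j, P.map φ, Q.map φ, V.map φ, ?_, ?_, ?_, ?_, ?_, ?_⟩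
    · exact (map_ne_zero φ).2 h0
    · intro h
      apply h1
      apply φ.injective
      rw [h, map_one]
    · exact natDegree_map_le.trans hP
    · exact natDegree_map_le.trans hQ
    · have e : wr (P.map φ) (Q.map φ) = (wr P Q).map φ := by
        simp only [wr, Polynomial.map_sub, Polynomial.map_mul, derivative_map]
      rw [e]
      exact (Polynomial.map_ne_zero_iff φ.injective).2 hw
    · have e := congrArg (Polynomial.map φ) he
      simpa only [Polynomial.map_sub, Polynomial.map_mul, Polynomial.map_pow, map_C] using e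

end Pool.Agent.COV.H53
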