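import Pool.Agent.COV.StmtsA

/-! Row AR1 of squad COV: reduction to a squarefree equation. -/

set_option autoImplicit false

namespace Pool.Agent.COV.H53

open Polynomial

section
variable {k : Type} [Field k]

lemma rf_inj {P Q : k[X]} (h : rf P = rf Q) : P = Q := RatFunc.algebraMap_injective k h

lemma rf_mul (P Q : k[X]) : rf (P * Q) = rf P * rf Q := map_mul _ _ _

lemma rf_sub (P Q : k[X]) : rf (P - Q) = rf P - rf Q := map_sub _ _ _

lemma rf_neg (P : k[X]) : rf (-P) = -rf P := map_neg _ _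

lemma rf_pow (P : k[X]) (n : ℕ) : rf (P ^ n) = rf P ^ n := map_pow _ _ _

lemma rf_ne {P : k[X]} (h : P ≠ 0) : rf P ≠ 0 := by
  intro h0
  apply h
  apply rf_inj
  rw [h0]
  exact (map_zero _).symm

lemma rf_C (c : k) : rf (C c) = algebraMap k (RatFunc k) c := by
  unfold rf
  exact (IsScalarTower.algebraMap_apply k k[X] (RatFunc k) c).symm

lemma rf_prod {ι : Type} (S : Finset ι) (F : ι → k[X]) : rf (∏ l ∈ S, F l) = ∏ l ∈ S, rf (F l) :=
  map_prod _ _ _

lemma transc [IsAlgClosed k] (P Q : k[X]) (h : wr P Q ≠ 0) :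
    Transcendental k (rf P / rf Q) := by
  intro halg
  have hQ : Q ≠ 0 := by
    rintro rfl
    apply h
    simp [wr]
  have hint : IsIntegral k (rf P / rf Q) := halg.isIntegral
  have hirr := minpoly.irreducible hint
  have hdeg := IsAlgClosed.degree_eq_one_of_irreducible k hirr
  obtain ⟨c, hc⟩ := minpoly.mem_range_of_degree_eq_one k _ hdeg
  have h2 : P = C c * Q := by
    apply rf_inj
    rw [rf_mul, rf_C, hc, div_mul_cancel₀ _ (rf_ne hQ)]
  apply h
  rw [h2]
  simp only [wr, derivative_mul, derivative_C]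
  ring

lemma mem_of_inK {θ φ : RatFunc k} (hθ : Transcendental k θ) (h : InK θ φ) :
    φ ∈ IntermediateField.adjoin k {θ} := by
  obtain ⟨N, M, hM, h⟩ := h
  rw [IntermediateField.mem_adjoin_simple_iff]
  refine ⟨N, M, ?_⟩
  have hM' : aeval θ M ≠ 0 := by
    intro h0
    exact hM ((transcendental_iff.1 hθ) M h0)
  rw [← h, mul_div_cancel_right₀ _ hM']

lemma inK_of_mem {θ φ : RatFunc k} (hθ : Transcendental k θ)
    (h : φ ∈ IntermediateField.adjoin k {θ}) : InK θ φ := by
  rw [IntermediateField.mem_adjoin_simple_iff] at h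
  obtain ⟨N, M, h⟩ := h
  by_cases hM : M = 0
  · subst hM
    refine ⟨0, 1, one_ne_zero, ?_⟩
    rw [h]
    simp
  · refine ⟨N, M, hM, ?_⟩
    have hM' : aeval θ M ≠ 0 := by
      intro h0
      exact hM ((transcendental_iff.1 hθ) M h0)
    rw [h, div_mul_cancel₀ _ hM']

/-- a polynomial is a square times a product of different linear factors -/
lemma core [IsAlgClosed k] : ∀ (n : ℕ) (T : k[X]), T.natDegree = n → T ≠ 0 →
    ∃ (H : k[X]) (S : Finset k), H ≠ 0 ∧ T = H ^ 2 * ∏ l ∈ S, (X - C l) := by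
  classical
  intro n
  induction n with
  | zero =>
    intro T hT h0
    obtain ⟨c, hc⟩ := natDegree_eq_zero.1 hT
    obtain ⟨e, he⟩ := IsAlgClosed.exists_pow_nat_eq c (n := 2) (by norm_num)
    refine ⟨C e, ∅, ?_, ?_⟩
    · intro h
      apply h0
      rw [← hc, ← he]
      have : e = 0 := by simpa using h
      simp [this]
    · rw [← hc, ← he]
      simp
  | succ n ih =>
    intro T hT h0
    have hd : T.degree ≠ 0 := by
      intro h
      rw [degree_eq_natDegree h0, hT] at h
      exact absurd h (by exact_mod_cast Nat.succ_ne_zero n)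
    obtain ⟨a, ha⟩ := IsAlgClosed.exists_root T hd
    obtain ⟨T1, hT1⟩ := dvd_iff_isRoot.2 ha
    have h1 : T1 ≠ 0 := by
      rintro rfl
      apply h0
      rw [hT1, mul_zero]
    have hdeg : T1.natDegree = n := by
      rw [hT1, natDegree_mul (X_sub_C_ne_zero a) h1, natDegree_X_sub_C] at hT
      omega
    obtain ⟨H, S, hH, hS⟩ := ih T1 hdeg h1
    by_cases haS : a ∈ S
    · refine ⟨H * (X - C a), S.erase a, mul_ne_zero hH (X_sub_C_ne_zero a), ?_⟩
      rw [hT1, hS, ← Finset.mul_prod_erase S _ haS]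
      ring
    · refine ⟨H, insert a S, hH, ?_⟩
      rw [hT1, hS, Finset.prod_insert haS]
      ring

lemma sqf (f : k[X]) (hf : Squarefree f) (W : RatFunc k) (G : k[X])
    (h : rf f * W ^ 2 = rf G) : ∃ V₁ : k[X], W = rf V₁ := by
  have hd0 : W.denom ≠ 0 := W.denom_ne_zero
  have h1 : f * W.num ^ 2 = G * W.denom ^ 2 := by
    apply rf_inj
    rw [rf_mul, rf_mul, rf_pow, rf_pow, ← h]
    have h2 : W = rf W.num / rf W.denom := (W.num_div_denom).symm
    have h3 : W * rf W.denom = rf W.num := (eq_div_iff (rf_ne hd0)).1 h2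
    rw [← h3]
    ring
  have hco : IsCoprime (W.denom ^ 2) (W.num ^ 2) := (W.isCoprime_num_denom).symm.pow
  have h3 : W.denom ^ 2 ∣ f * W.num ^ 2 := ⟨G, by rw [h1]; ring⟩
  have h4 : W.denom * W.denom ∣ f := by
    rw [← pow_two]
    exact hco.dvd_of_dvd_mul_right h3
  have h5 : IsUnit W.denom := hf _ h4
  have h6 : W.denom = 1 := W.monic_denom.eq_one_of_isUnit h5
  refine ⟨W.num, ?_⟩
  have h2 : rf W.num / rf W.denom = W := W.num_div_denom
  rw [h6] at h2
  have h7 : rf (1 : k[X]) = 1 := map_one _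
  rw [h7, div_one] at h2
  exact h2.symm

end

theorem ar1 : Ar1Stmt := by
  classical
  intro k _ _ _ f s P Q V hf hPQ hW hV hs h1 h2
  have hQ : Q ≠ 0 := by
    rintro rfl
    apply hW
    simp [wr]
  have hP : P ≠ 0 := by
    rintro rfl
    apply hW
    simp [wr]
  have hf0 : f ≠ 0 := hf.ne_zero
  have hQ' : rf Q ≠ 0 := rf_ne hQ
  have hW' : rf (wr P Q) ≠ 0 := rf_ne hW
  have hf' : rf f ≠ 0 := rf_ne hf0
  have hθ : Transcendental k (rf P / rf Q) := transc P Q hW
  have m2 := mem_of_inK hθ h2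
  obtain ⟨θ, hθd⟩ : ∃ θ : RatFunc k, θ = rf P / rf Q := ⟨_, rfl⟩
  rw [← hθd] at hθ h1 h2 m2
  obtain ⟨N, M, hM, hNM⟩ := h1
  have hne : ∀ T : k[X], T ≠ 0 → aeval θ T ≠ 0 := fun T hT h0 =>
    hT ((transcendental_iff.1 hθ) T h0)
  have hMθ : aeval θ M ≠ 0 := hne M hM
  have hN : N ≠ 0 := by
    rintro rfl
    rw [map_zero] at hNM
    exact mul_ne_zero (mul_ne_zero hf' (pow_ne_zero 2 hV)) hMθ hNM
  obtain ⟨H, S', hH, hS'⟩ := core _ (N * M) rfl (mul_ne_zero hN hM)
  have hHθ : aeval θ H ≠ 0 := hne H hH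
  obtain ⟨u, hu⟩ : ∃ u : RatFunc k, u = aeval θ M / aeval θ H := ⟨_, rfl⟩
  have hu0 : u ≠ 0 := by
    rw [hu]
    exact div_ne_zero hMθ hHθ
  have mu : u ∈ IntermediateField.adjoin k {θ} := by
    rw [IntermediateField.mem_adjoin_simple_iff]
    exact ⟨M, H, hu⟩
  have key : rf f * (V * u) ^ 2 = ∏ l ∈ S', (θ - algebraMap k (RatFunc k) l) := by
    have e1 : aeval θ N * aeval θ M =
        aeval θ H ^ 2 * ∏ l ∈ S', (θ - algebraMap k (RatFunc k) l) := by
      rw [← map_mul, hS', map_mul, map_pow, map_prod]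
      simp
    have e2 : rf f * (V * u) ^ 2 * aeval θ H ^ 2 = (rf f * V ^ 2 * aeval θ M) * aeval θ M := by
      rw [hu]
      field_simp
    rw [hNM, e1] at e2
    have e3 := pow_ne_zero 2 hHθ
    exact mul_right_cancel₀ e3 (by rw [e2]; ring)
  have key2 : rf f * (V * u) ^ 2 * rf Q ^ S'.card = rf (∏ l ∈ S', (P - C l * Q)) := by
    rw [key, rf_prod, ← Finset.prod_const, ← Finset.prod_mul_distrib]
    apply Finset.prod_congr rfl
    intro l _
    rw [rf_sub, rf_mul, rf_C, hθd]
    field_simp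
  have hVu : V * u ≠ 0 := mul_ne_zero hV hu0
  rcases Nat.even_or_odd' S'.card with ⟨t, ht | ht⟩
  · -- even case
    have e1 : rf f * (V * u * rf Q ^ t) ^ 2 = rf (∏ l ∈ S', (P - C l * Q)) := by
      rw [← key2, ht]
      ring
    obtain ⟨V₁, hV₁⟩ := sqf f hf _ _ e1
    refine ⟨P, Q, V₁, S', hPQ, hW, ⟨t, by omega⟩, ?_, rfl, ?_, ?_⟩
    · rintro rfl
      apply mul_ne_zero hVu (pow_ne_zero t hQ')
      rw [hV₁]
      exact map_zero _
    · apply rf_inj
      rw [rf_mul, rf_pow, ← hV₁, e1]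
    · rw [← hθd]
      apply inK_of_mem hθ
      have e2 : S'.card / 2 = t := by omega
      have e3 : rf s * rf V₁ * rf Q ^ 2 / (rf Q ^ (S'.card / 2) * rf (wr P Q)) =
          (rf s * V * rf Q ^ 2 / rf (wr P Q)) * u := by
        rw [← hV₁, e2]
        field_simp
      rw [e3]
      exact mul_mem m2 mu
  · -- odd case
    obtain ⟨n, hn⟩ : ∃ n, n = max P.natDegree Q.natDegree := ⟨_, rfl⟩
    obtain ⟨μ, hμ⟩ := Infinite.exists_notMem_finset (insert (P.coeff n / Q.coeff n) S')
    rw [Finset.mem_insert, not_or] at hμ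
    obtain ⟨hμ1, hμ2⟩ := hμ
    have hcoef : P.coeff n - μ * Q.coeff n ≠ 0 := by
      by_cases hq : Q.coeff n = 0
      · rw [hq, mul_zero, sub_zero]
        intro hp
        rcases le_total P.natDegree Q.natDegree with h | h
        · rw [max_eq_right h] at hn
          rw [hn] at hq
          exact hQ (leadingCoeff_eq_zero.1 hq)
        · rw [max_eq_left h] at hn
          rw [hn] at hp
          exact hP (leadingCoeff_eq_zero.1 hp)
      · intro h
        apply hμ1
        rw [eq_div_iff hq]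
        exact (sub_eq_zero.1 h).symm
    obtain ⟨B, hB⟩ : ∃ B : k[X], B = P - C μ * Q := ⟨_, rfl⟩
    have hBn : B.natDegree = n := by
      apply le_antisymm
      · rw [hB]
        refine (natDegree_sub_le _ _).trans ?_
        rw [hn]
        exact max_le_max le_rfl (natDegree_C_mul_le _ _)
      · apply le_natDegree_of_ne_zero
        rw [hB, coeff_sub, coeff_C_mul]
        exact hcoef
    have hwr : wr Q B = - wr P Q := by
      rw [hB]
      simp only [wr, derivative_sub, derivative_mul, derivative_C]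
      ring
    have hwr0 : wr Q B ≠ 0 := by
      rw [hwr]
      exact neg_ne_zero.2 hW
    have hB0 : B ≠ 0 := by
      rintro rfl
      apply hwr0
      simp [wr]
    have hB' : rf B ≠ 0 := rf_ne hB0
    have hco : IsCoprime Q B := by
      have h3 := hPQ.symm.add_mul_left_right (-C μ)
      have e : P + Q * -C μ = B := by
        rw [hB]
        ring
      rwa [e] at h3
    have hinj : Function.Injective (fun l : k => (l - μ)⁻¹) := by
      intro a b hab
      have := inv_injective hab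
      exact sub_left_injective this
    have h0 : (0 : k) ∉ S'.image (fun l : k => (l - μ)⁻¹) := by
      intro h
      rw [Finset.mem_image] at h
      obtain ⟨l, hl, h⟩ := h
      rw [inv_eq_zero, sub_eq_zero] at h
      rw [h] at hl
      exact hμ2 hl
    obtain ⟨S, hS⟩ : ∃ S : Finset k, S = insert 0 (S'.image (fun l : k => (l - μ)⁻¹)) := ⟨_, rfl⟩
    have hcard : S.card = 2 * (t + 1) := by
      rw [hS, Finset.card_insert_of_notMem h0, Finset.card_image_of_injective _ hinj, ht]
      ring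
    have hprod : ∏ l ∈ S, (Q - C l * B) = Q * ∏ l ∈ S', (Q - C (l - μ)⁻¹ * B) := by
      rw [hS, Finset.prod_insert h0, Finset.prod_image (fun a _ b _ h => hinj h)]
      simp
    obtain ⟨c, hc⟩ : ∃ c : k, c = ∏ l ∈ S', (-(l - μ)) := ⟨_, rfl⟩
    have hc0 : c ≠ 0 := by
      rw [hc, Finset.prod_ne_zero_iff]
      intro l hl h
      rw [neg_eq_zero, sub_eq_zero] at h
      rw [h] at hl
      exact hμ2 hl
    have hprod2 : ∏ l ∈ S', (P - C l * Q) = C c * ∏ l ∈ S', (Q - C (l - μ)⁻¹ * B) := by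
      rw [hc, map_prod, ← Finset.prod_mul_distrib]
      apply Finset.prod_congr rfl
      intro l hl
      have hl0 : l - μ ≠ 0 := by
        intro h
        rw [sub_eq_zero] at h
        rw [h] at hl
        exact hμ2 hl
      have e : C (-(l - μ)) * (Q - C (l - μ)⁻¹ * B) =
          -C (l - μ) * Q + C ((l - μ) * (l - μ)⁻¹) * B := by
        rw [C_mul, C_neg]
        ring
      rw [e, mul_inv_cancel₀ hl0, hB, C_sub, C_1]
      ring
    obtain ⟨e, he⟩ := IsAlgClosed.exists_pow_nat_eq c (n := 2) (by norm_num)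
    have he0 : e ≠ 0 := by
      rintro rfl
      apply hc0
      rw [← he]
      ring
    obtain ⟨ε, hε⟩ : ∃ ε : RatFunc k, ε = algebraMap k (RatFunc k) e := ⟨_, rfl⟩
    have hε0 : ε ≠ 0 := by
      rw [hε]
      exact (_root_.map_ne_zero _).2 he0
    have hε2 : rf (C c) = ε ^ 2 := by
      rw [rf_C, ← he, map_pow, hε]
    have e1 : rf f * (V * u * rf Q ^ (t + 1) / ε) ^ 2 = rf (∏ l ∈ S, (Q - C l * B)) := by
      rw [hprod, rf_mul]
      rw [hprod2, rf_mul, hε2, ht] at key2
      have e2 : rf f * (V * u * rf Q ^ (t + 1) / ε) ^ 2 * ε ^ 2 =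
          rf Q * (rf f * (V * u) ^ 2 * rf Q ^ (2 * t + 1)) := by
        field_simp
        ring
      rw [key2] at e2
      have e3 := pow_ne_zero 2 hε0
      exact mul_right_cancel₀ e3 (by rw [e2]; ring)
    obtain ⟨V₁, hV₁⟩ := sqf f hf _ _ e1
    refine ⟨Q, B, V₁, S, hco, hwr0, ⟨t + 1, by omega⟩, ?_, ?_, ?_, ?_⟩
    · rintro rfl
      apply div_ne_zero (mul_ne_zero hVu (pow_ne_zero (t + 1) hQ')) hε0
      rw [hV₁]
      exact map_zero _
    · rw [hBn, ← hn]
      exact max_eq_right (by rw [hn]; exact le_max_right _ _)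
    · apply rf_inj
      rw [rf_mul, rf_pow, ← hV₁, e1]
    · have hα : Transcendental k (rf Q / rf B) := transc Q B hwr0
      obtain ⟨α, hαd⟩ : ∃ α : RatFunc k, α = rf Q / rf B := ⟨_, rfl⟩
      rw [← hαd] at hα ⊢
      apply inK_of_mem hα
      have hα0 : α ≠ 0 := by
        rw [hαd]
        exact div_ne_zero hQ' hB'
      have mα : α ∈ IntermediateField.adjoin k {α} :=
        IntermediateField.mem_adjoin_simple_self k α
      have mθ : θ ∈ IntermediateField.adjoin k {α} := by
        have e2 : θ = α⁻¹ + algebraMap k (RatFunc k) μ := by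
          have e3 : rf P = rf B + algebraMap k (RatFunc k) μ * rf Q := by
            rw [hB, rf_sub, rf_mul, rf_C]
            ring
          rw [hθd, hαd, e3]
          field_simp
        rw [e2]
        exact add_mem (inv_mem mα) (algebraMap_mem _ _)
      have hle : IntermediateField.adjoin k {θ} ≤ IntermediateField.adjoin k {α} :=
        IntermediateField.adjoin_simple_le_iff.2 mθ
      have e2 : S.card / 2 = t + 1 := by omega
      have e3 : rf s * rf V₁ * rf B ^ 2 / (rf B ^ (S.card / 2) * rf (wr Q B)) =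
          (rf s * V * rf Q ^ 2 / rf (wr P Q)) * u * ((-ε)⁻¹ * (α⁻¹ ^ 2 * α ^ (t + 1))) := by
        rw [← hV₁, e2, hwr, rf_neg, hαd, div_pow (rf Q) (rf B) (t + 1)]
        field_simp
      rw [e3]
      refine mul_mem (mul_mem (hle m2) (hle mu)) (mul_mem (inv_mem (neg_mem ?_))
        (mul_mem (pow_mem (inv_mem mα) 2) (pow_mem mα (t + 1))))
      rw [hε]
      exact algebraMap_mem _ _

end Pool.Agent.COV.H53
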